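import Mathlib

/-!
Letter level: sequences of natural numbers, the maps that exchange 0 and k after (before) a letter k,
their alternating compositions, and the separation of the tiles `0, …, n`.
-/

namespace Pool.Agent.H624CA

/-- exchange `0` and `k` -/
def sw (k e : ℕ) : ℕ := if e = 0 then k else if e = k then 0 else e

/-- the neighbour looked at: the left one for `true`, the right one for `false` -/
def nb (d : Bool) (i : ℤ) : ℤ := if d then i - 1 else i + 1

/-- exchange `0` and `k` at the places whose neighbour is `k` -/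
def Gz (k : ℕ) (d : Bool) (z : ℤ → ℕ) : ℤ → ℕ := fun i =>
  if z (nb d i) = k then sw k (z i) else z i

/-- the composition of the first `n` maps -/
def Fz (d : ℕ → Bool) : ℕ → (ℤ → ℕ) → (ℤ → ℕ)
  | 0, z => z
  | k + 1, z => Gz (k + 1) (d (k + 1)) (Fz d k z)

lemma Gz_ne {k m : ℕ} {d : Bool} {z : ℤ → ℕ} {i : ℤ} (h0 : m ≠ 0) (hk : m ≠ k) :
    Gz k d z i = m ↔ z i = m := by
  unfold Gz sw
  split_ifs with h1 h2 h3
  · constructor
    · intro h; omega
    · intro h; omega
  · constructor
    · intro h; omega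
    · intro h; omega
  · rfl
  · rfl

lemma Fz_ne {d : ℕ → Bool} {m : ℕ} {z : ℤ → ℕ} {i : ℤ} : ∀ {K : ℕ}, K < m →
    (Fz d K z i = m ↔ z i = m) := by
  intro K
  induction K with
  | zero => intro _; rfl
  | succ K ih =>
    intro h
    show Gz (K + 1) (d (K + 1)) (Fz d K z) i = m ↔ _
    rw [Gz_ne (by omega) (by omega)]
    exact ih (by omega)

lemma Fz_keep {d : ℕ → Bool} {m K : ℕ} {z : ℤ → ℕ} {i : ℤ} (h1 : 1 ≤ m) (h2 : m ≤ K) :
    ∀ {M : ℕ}, K ≤ M → (Fz d M z i = m ↔ Fz d K z i = m) := by
  intro M hM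
  induction M, hM using Nat.le_induction with
  | base => rfl
  | succ M hM ih =>
    show Gz (M + 1) (d (M + 1)) (Fz d M z) i = m ↔ _
    rw [Gz_ne (by omega) (by omega)]
    exact ih

lemma Gz_zero {k : ℕ} {d : Bool} {z : ℤ → ℕ} {i : ℤ} (hk : k ≠ 0) (h : Gz k d z i = 0) :
    (z i = 0 ∨ z i = k) ∧ (z i = k ↔ z (nb d i) = k) := by
  unfold Gz sw at h
  split_ifs at h with h1 h2 h3
  · omega
  · exact ⟨Or.inr h3, by simp [h1, h3]⟩
  · omega
  · exact ⟨Or.inl h, by constructor
                        · intro h'; omega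
                        · intro h'; exact absurd h' h1⟩

lemma Fz_run {d : ℕ → Bool} : ∀ (M : ℕ) (z : ℤ → ℕ) (a b : ℤ), a ≤ b →
    (∀ i, a ≤ i → i ≤ b → Fz d M z i = 0) → ∃ s ≤ M, ∀ i, a ≤ i → i ≤ b → z i = s := by
  intro M
  induction M with
  | zero =>
    intro z a b _ h
    exact ⟨0, le_rfl, h⟩
  | succ M ih =>
    intro z a b hab h
    have h' : ∀ i, a ≤ i → i ≤ b → (Fz d M z i = 0 ∨ Fz d M z i = M + 1) ∧
        (Fz d M z i = M + 1 ↔ Fz d M z (nb (d (M + 1)) i) = M + 1) := by
      intro i h1 h2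
      exact Gz_zero (by omega) (h i h1 h2)
    have adj : ∀ i, a ≤ i → i < b → (Fz d M z i = M + 1 ↔ Fz d M z (i + 1) = M + 1) := by
      intro i h1 h2
      cases hd : d (M + 1) with
      | true =>
        have := (h' (i + 1) (by omega) (by omega)).2
        rw [hd] at this
        simp only [nb, if_true, add_sub_cancel_right] at this
        exact this.symm
      | false =>
        have := (h' i (by omega) (by omega)).2
        rw [hd] at this
        simpa only [nb, Bool.false_eq_true, if_false] using this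
    have all : ∀ m : ℕ, a + m ≤ b → (Fz d M z a = M + 1 ↔ Fz d M z (a + m) = M + 1) := by
      intro m
      induction m with
      | zero => intro _; simp
      | succ m ihm =>
        intro hm
        rw [ihm (by push_cast at hm; omega), adj (a + m) (by omega) (by push_cast at hm; omega)]
        push_cast
        rw [add_assoc]
    have all' : ∀ i, a ≤ i → i ≤ b → (Fz d M z a = M + 1 ↔ Fz d M z i = M + 1) := by
      intro i h1 h2
      have := all (i - a).toNat (by omega)
      have e : a + (((i - a).toNat : ℕ) : ℤ) = i := by omega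
      rwa [e] at this
    by_cases hc : Fz d M z a = M + 1
    · refine ⟨M + 1, le_rfl, fun i h1 h2 => ?_⟩
      have := (all' i h1 h2).1 hc
      exact (Fz_ne (by omega)).1 this
    · obtain ⟨s, hs, hst⟩ := ih z a b hab fun i h1 h2 => by
        rcases (h' i h1 h2).1 with h3 | h3
        · exact h3
        · exact absurd ((all' i h1 h2).2 h3) hc
      exact ⟨s, by omega, hst⟩

/-- zeros on the left of a wall stay -/
lemma zero_left {d : ℕ → Bool} {z : ℤ → ℕ} {p : ℤ} {M0 M : ℕ}
    (h0 : ∀ i, i < p → Fz d M0 z i = 0) (hw : ∀ m, M0 ≤ m → m < M → Fz d m z p ≠ m + 1) :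
    ∀ m, M0 ≤ m → m ≤ M → ∀ i, i < p → Fz d m z i = 0 := by
  intro m hm
  induction m, hm using Nat.le_induction with
  | base => intro _; exact h0
  | succ m hm ih =>
    intro hM i hi
    have ih' := ih (by omega)
    show Gz (m + 1) (d (m + 1)) (Fz d m z) i = 0
    have hn : Fz d m z (nb (d (m + 1)) i) ≠ m + 1 := by
      cases d (m + 1) with
      | true =>
        simp only [nb, if_true]
        rw [ih' (i - 1) (by omega)]; omega
      | false =>
        simp only [nb, Bool.false_eq_true, if_false]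
        rcases (show i + 1 < p ∨ i + 1 = p by omega) with h | h
        · rw [ih' _ h]; omega
        · rw [h]; exact hw m hm (by omega)
    unfold Gz
    rw [if_neg hn]
    exact ih' i hi

lemma sw_self {k : ℕ} : sw k k = 0 := by
  unfold sw; split_ifs <;> simp_all

/-- a left run of `s` becomes zero at step `s`, if the step looks to the left -/
lemma run_true {d : ℕ → Bool} {z : ℤ → ℕ} {p : ℤ} {s : ℕ} (hz : ∀ i, i < p → z i = s)
    (hd : s ≠ 0 → d s = true) : ∀ i, i < p → Fz d s z i = 0 := by
  intro i hi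
  cases s with
  | zero => exact hz i hi
  | succ s =>
    show Gz (s + 1) (d (s + 1)) (Fz d s z) i = 0
    rw [hd (by omega)]
    have h1 : Fz d s z (i - 1) = s + 1 := (Fz_ne (by omega)).2 (hz _ (by omega))
    have h2 : Fz d s z i = s + 1 := (Fz_ne (by omega)).2 (hz _ (by omega))
    unfold Gz
    simp only [nb, if_true, h1, h2, sw_self]

/-- a left run of `s` becomes zero at step `s`, except for the last letter, if the step looks to
the right -/
lemma run_false {d : ℕ → Bool} {z : ℤ → ℕ} {p : ℤ} {s : ℕ} (hs : 1 ≤ s)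
    (hz : ∀ i, i < p → z i = s) (hd : d s = false) : ∀ i, i < p - 1 → Fz d s z i = 0 := by
  intro i hi
  cases s with
  | zero => omega
  | succ s =>
    show Gz (s + 1) (d (s + 1)) (Fz d s z) i = 0
    rw [hd]
    have h1 : Fz d s z (i + 1) = s + 1 := (Fz_ne (by omega)).2 (hz _ (by omega))
    have h2 : Fz d s z i = s + 1 := (Fz_ne (by omega)).2 (hz _ (by omega))
    unfold Gz
    simp only [nb, Bool.false_eq_true, if_false, h1, h2, if_true, sw_self]

lemma stays {d : ℕ → Bool} {z : ℤ → ℕ} {p : ℤ} {s n : ℕ} (hs : 1 ≤ s) (hn : s ≤ n)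
    (hd : d s = false) (hz : z (p - 1) = s) (hp : z p ≠ s) : Fz d n z (p - 1) = s := by
  rw [Fz_keep hs le_rfl hn]
  cases s with
  | zero => omega
  | succ s =>
    show Gz (s + 1) (d (s + 1)) (Fz d s z) (p - 1) = s + 1
    rw [hd]
    have h1 : Fz d s z p ≠ s + 1 := fun h => hp ((Fz_ne (by omega)).1 h)
    have h2 : Fz d s z (p - 1) = s + 1 := (Fz_ne (by omega)).2 hz
    unfold Gz
    simp only [nb, Bool.false_eq_true, if_false, sub_add_cancel, h1, h2]

lemma noleft {d : ℕ → Bool} {n j s : ℕ} {y : ℤ → ℕ} (hj1 : 1 ≤ j) (hjn : j ≤ n)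
    (hd : d j = false) (hs : s < j) (hy : ∃ N : ℤ, ∀ a, a ≤ N → y a = s)
    (h0 : Fz d n y 0 = n + 1) (h1 : Fz d n y (-1) = j)
    (h2 : ∀ a, a < -1 → Fz d n y a = 0) : False := by
  obtain ⟨N, hN⟩ := hy
  have y2 : ∀ a, a < -1 → y a = s := by
    intro a ha
    obtain ⟨s', hs', hst⟩ := Fz_run n y (min a N) (-2) (by have := min_le_left a N; omega)
      (fun i _ h4 => h2 i (by omega))
    have e1 := hst (min a N) le_rfl (by have := min_le_left a N; omega)
    rw [hN _ (min_le_right _ _)] at e1
    rw [hst a (min_le_left _ _) (by omega), e1]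
  have y0 : y 0 = n + 1 := (Fz_ne (by omega)).1 h0
  obtain ⟨j, rfl⟩ : ∃ j', j = j' + 1 := ⟨j - 1, by omega⟩
  have y1 : y (-1) = j + 1 := by
    have e1 : Fz d (j + 1) y (-1) = j + 1 := (Fz_keep hj1 le_rfl hjn).1 h1
    have e2 : Gz (j + 1) (d (j + 1)) (Fz d j y) (-1) = j + 1 := e1
    rw [hd] at e2
    have e3 : Fz d j y 0 ≠ j + 1 := fun h => by
      have := (Fz_ne (by omega)).1 h
      omega
    unfold Gz at e2
    simp only [nb, Bool.false_eq_true, if_false, neg_add_cancel, e3] at e2
    exact (Fz_ne (by omega)).1 e2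
  have hsd : s ≠ 0 → d s = true := by
    intro hs0
    by_contra hc
    have hc' : d s = false := by simpa using hc
    have := stays (z := y) (p := -1) (s := s) (n := n) (by omega) (by omega) hc'
      (y2 _ (by omega)) (by rw [y1]; omega)
    rw [h2 _ (by omega)] at this
    omega
  have z1 := run_true (d := d) (z := y) (p := -1) (s := s) y2 hsd
  have z2 := zero_left (M := j) z1 (fun m _ hm h => by
    have := (Fz_ne (d := d) (m := j + 1) (K := m) (z := y) (i := -1) (by omega)).2 y1
    omega) j (by omega) le_rfl (-2) (by omega)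
  have z3 : Fz d j y (-1) = j + 1 := (Fz_ne (by omega)).2 y1
  have z4 : Fz d (j + 1) y (-2) = j + 1 := by
    show Gz (j + 1) (d (j + 1)) (Fz d j y) (-2) = j + 1
    rw [hd]
    unfold Gz
    have e : (-2 : ℤ) + 1 = -1 := by norm_num
    simp only [nb, Bool.false_eq_true, if_false, e, z3, if_true, z2, sw]
  have z5 := (Fz_keep hj1 le_rfl hjn).2 z4
  rw [h2 _ (by omega)] at z5
  omega

/-- separation of tiles by images with a given left end -/
theorem RSz {d : ℕ → Bool} (hd : ∀ k, d (k + 1) = !(d k)) {n i j k : ℕ} (hij : i < j) (hjn : j ≤ n)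
    (hk1 : 1 ≤ k) (hkj : k < j) : ∃ x : ℤ → ℕ, (∀ a, x a ≤ n + 1) ∧
      (∃ N : ℤ, ∀ a, a ≤ N → x a = j) ∧ (∃ N : ℤ, ∀ a, N ≤ a → x a = 0) ∧
      ∀ i', (i' = i ∨ (i < k ∧ i' < k)) →
        ¬ ∃ y : ℤ → ℕ, (∃ N : ℤ, ∀ a, a ≤ N → y a = i') ∧ Fz d n y = Fz d n x := by
  have hn1 : ∀ m, m < n → n + 1 ≠ m + 1 := by intro m hm; omega
  cases hdj : d j with
  | false =>
    set x : ℤ → ℕ := fun a => if a < 0 then j else if a = 0 then n + 1 else 0 with hx
    have x1 : ∀ a, a < 0 → x a = j := fun a ha => by simp only [hx, ha, if_true]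
    have x2 : x 0 = n + 1 := by simp [hx]
    have x3 : ∀ a, 0 < a → x a = 0 := fun a ha => by
      have h1 : ¬ a < 0 := by omega
      have h2 : a ≠ 0 := by omega
      simp only [hx, h1, h2, if_false]
    have w1 : Fz d n x (-1) = j := by
      have := stays (z := x) (p := 0) (s := j) (n := n) (by omega) hjn hdj
        (x1 _ (by omega)) (by rw [x2]; omega)
      simpa using this
    have w0 : Fz d n x 0 = n + 1 := (Fz_ne (by omega)).2 x2
    have w2 : ∀ a, a < -1 → Fz d n x a = 0 := by
      have e1 := run_false (d := d) (z := x) (p := 0) (s := j) (by omega) x1 hdj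
      refine zero_left (M0 := j) (p := -1) (fun i hi => e1 i (by omega)) (fun m hm hmn h => ?_)
        n hjn le_rfl
      have e2 := (Fz_keep (d := d) (z := x) (i := -1) (m := j) (by omega) hm (le_of_lt hmn)).1 w1
      omega
    refine ⟨x, ?_, ⟨-1, fun a ha => x1 a (by omega)⟩, ⟨1, fun a ha => x3 a (by omega)⟩, ?_⟩
    · intro a
      simp only [hx]
      split_ifs <;> omega
    · rintro i' hi' ⟨y, hy, hyx⟩
      have hi'j : i' < j := by omega
      exact noleft (by omega) hjn hdj hi'j hy (by rw [hyx]; exact w0) (by rw [hyx]; exact w1)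
        (fun a ha => by rw [hyx]; exact w2 a ha)
  | true =>
    obtain ⟨j, rfl⟩ : ∃ j', j = j' + 1 := ⟨j - 1, by omega⟩
    have hdj' : d j = false := by
      have := hd j
      rw [hdj] at this
      cases hh : d j with
      | false => rfl
      | true => rw [hh] at this; simp at this
    by_cases hi : i = j
    · set x : ℤ → ℕ := fun a => if a < 0 then j + 1 else if a = 0 then n + 1 else 0 with hx
      have x1 : ∀ a, a < 0 → x a = j + 1 := fun a ha => by simp only [hx, ha, if_true]
      have x2 : x 0 = n + 1 := by simp [hx]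
      have x3 : ∀ a, 0 < a → x a = 0 := fun a ha => by
        have h1 : ¬ a < 0 := by omega
        have h2 : a ≠ 0 := by omega
        simp only [hx, h1, h2, if_false]
      have w0 : Fz d n x 0 = n + 1 := (Fz_ne (by omega)).2 x2
      have w2 : ∀ a, a < 0 → Fz d n x a = 0 := by
        have e1 := run_true (d := d) (z := x) (p := 0) (s := j + 1) x1 (fun _ => hdj)
        refine zero_left (M0 := j + 1) (p := 0) e1 (fun m hm hmn h => ?_) n hjn le_rfl
        have e2 := (Fz_ne (d := d) (z := x) (i := 0) (m := n + 1) (K := m) (by omega)).2 x2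
        omega
      refine ⟨x, ?_, ⟨-1, fun a ha => x1 a (by omega)⟩, ⟨1, fun a ha => x3 a (by omega)⟩, ?_⟩
      · intro a
        simp only [hx]
        split_ifs <;> omega
      · rintro i' hi' ⟨y, ⟨N, hN⟩, hyx⟩
        have hi'j : i' = j := by omega
        subst hi'j
        obtain ⟨s', hs', hst⟩ := Fz_run n y (min (-1) N) (-1) (min_le_left _ _)
          (fun i _ h4 => by rw [hyx]; exact w2 i (by omega))
        have e1 := hst (min (-1) N) le_rfl (min_le_left _ _)
        rw [hN _ (min_le_right _ _)] at e1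
        have e2 : y (-1) = i' := by rw [hst (-1) (min_le_left _ _) le_rfl, e1]
        have y0 : y 0 = n + 1 := (Fz_ne (d := d) (K := n) (by omega)).1 (by rw [hyx]; exact w0)
        have := stays (z := y) (p := 0) (s := i') (n := n) (by omega) (by omega) hdj'
          (by simpa using e2) (by rw [y0]; omega)
        rw [hyx, w2 _ (by omega)] at this
        omega
    · set x : ℤ → ℕ := fun a => if a < -1 then j + 1 else if a = -1 then j else
        if a = 0 then n + 1 else 0 with hx
      have x1 : ∀ a, a < -1 → x a = j + 1 := fun a ha => by simp only [hx, ha, if_true]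
      have x4 : x (-1) = j := by simp [hx]
      have x2 : x 0 = n + 1 := by simp [hx]
      have x3 : ∀ a, 0 < a → x a = 0 := fun a ha => by
        have h1 : ¬ a < -1 := by omega
        have h2 : a ≠ 0 := by omega
        have h3 : a ≠ -1 := by omega
        simp only [hx, h1, h2, h3, if_false]
      have w1 : Fz d n x (-1) = j := by
        have := stays (z := x) (p := 0) (s := j) (n := n) (by omega) (by omega) hdj'
          (by simpa using x4) (by rw [x2]; omega)
        simpa using this
      have w0 : Fz d n x 0 = n + 1 := (Fz_ne (by omega)).2 x2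
      have w2 : ∀ a, a < -1 → Fz d n x a = 0 := by
        have e1 := run_true (d := d) (z := x) (p := -1) (s := j + 1) x1 (fun _ => hdj)
        refine zero_left (M0 := j + 1) (p := -1) e1 (fun m hm hmn h => ?_)
          n hjn le_rfl
        have e2 := (Fz_keep (d := d) (z := x) (i := -1) (m := j) (by omega) (K := m) (by omega)
          (le_of_lt hmn)).1 w1
        omega
      refine ⟨x, ?_, ⟨-2, fun a ha => x1 a (by omega)⟩, ⟨1, fun a ha => x3 a (by omega)⟩, ?_⟩
      · intro a
        simp only [hx]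
        split_ifs <;> omega
      · rintro i' hi' ⟨y, hy, hyx⟩
        have hi'j : i' < j := by omega
        exact noleft (d := d) (n := n) (j := j) (s := i') (by omega) (by omega) hdj' hi'j hy (by rw [hyx]; exact w0)
          (by rw [hyx]; exact w1) (fun a ha => by rw [hyx]; exact w2 a ha)

/-- reflection -/
def rvz (z : ℤ → ℕ) : ℤ → ℕ := fun i => z (-i)

lemma nb_neg (d : Bool) (i : ℤ) : -(nb d i) = nb (!d) (-i) := by
  cases d <;> simp [nb] <;> ring

lemma Fz_rv (d : ℕ → Bool) (n : ℕ) (z : ℤ → ℕ) :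
    Fz (fun k => !(d k)) n (rvz z) = rvz (Fz d n z) := by
  induction n with
  | zero => rfl
  | succ n ih =>
    show Gz (n + 1) (!(d (n + 1))) (Fz (fun k => !(d k)) n (rvz z)) = _
    rw [ih]
    funext i
    show Gz (n + 1) (!(d (n + 1))) (rvz (Fz d n z)) i = Gz (n + 1) (d (n + 1)) (Fz d n z) (-i)
    unfold Gz rvz
    rw [nb_neg, Bool.not_not]

theorem LSz {d : ℕ → Bool} (hd : ∀ k, d (k + 1) = !(d k)) {n i j k : ℕ} (hij : i < j) (hjn : j ≤ n)
    (hk1 : 1 ≤ k) (hkj : k < j) : ∃ x : ℤ → ℕ, (∀ a, x a ≤ n + 1) ∧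
      (∃ N : ℤ, ∀ a, N ≤ a → x a = j) ∧ (∃ N : ℤ, ∀ a, a ≤ N → x a = 0) ∧
      ∀ i', (i' = i ∨ (i < k ∧ i' < k)) →
        ¬ ∃ y : ℤ → ℕ, (∃ N : ℤ, ∀ a, N ≤ a → y a = i') ∧ Fz d n y = Fz d n x := by
  obtain ⟨x, h1, ⟨N, h2⟩, ⟨N', h3⟩, h4⟩ := RSz (d := fun k => !(d k)) (n := n)
    (fun k => by simp only [hd k]) hij hjn hk1 hkj
  refine ⟨rvz x, fun a => h1 _, ⟨-N, fun a ha => h2 _ (by omega)⟩,
    ⟨-N', fun a ha => h3 _ (by omega)⟩, ?_⟩
  rintro i' hi' ⟨y, ⟨M, hy⟩, hyx⟩
  refine h4 i' hi' ⟨rvz y, ⟨-M, fun a ha => hy _ (by omega)⟩, ?_⟩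
  rw [Fz_rv, hyx, ← Fz_rv]
  congr 1
  funext a
  simp [rvz]

/-- constant sequences -/
lemma Fz_cst {d : ℕ → Bool} {s : ℕ} : ∀ {n : ℕ}, s ≤ n → Fz d n (fun _ => s) = fun _ => 0 := by
  have key : ∀ n : ℕ, Fz d n (fun _ => s) = fun _ => if n < s then s else 0 := by
    intro n
    induction n with
    | zero =>
      funext i
      show s = _
      split_ifs <;> omega
    | succ n ih =>
      show Gz (n + 1) (d (n + 1)) (Fz d n fun _ => s) = _
      rw [ih]
      funext i
      unfold Gz sw
      by_cases h1 : n + 1 < s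
      · have h2 : n < s := by omega
        have h3 : s ≠ n + 1 := by omega
        simp [h1, h2, h3]
      · by_cases h2 : n < s
        · have h3 : s = n + 1 := by omega
          simp [h3]
        · simp [h1, h2]
  intro n hn
  rw [key]
  funext i
  rw [if_neg (by omega)]

end Pool.Agent.H624CA
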