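import Pool.Agent.H624CB.Hat
import Pool.Agent.H624CB.Letters

/-!
Code words without overlaps, and the cellular automata that exchange two code words `0` and `k`
after (before) a code word `k`.
-/

namespace Pool.Agent.H624CA

section
attribute [local instance] Classical.propDecidable

variable {S : Type} (s0 s1 : S) (n : ℕ)

/-- the code word of the letter `e`: `0 0 1^(e+1) 0 1^(n+2-e)`, of length `n + 6` -/
noncomputable def Wd (e : ℕ) (j : ℕ) : S := if j ≤ 1 ∨ j = e + 3 then s0 else s1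

/-- the code word of `e` occurs in `x` at `a` -/
def Ic (x : ℤ → S) (a : ℤ) (e : ℕ) : Prop := ∀ j : ℕ, j < n + 6 → x (a + j) = Wd s0 s1 e j

/-- the letter whose code word occurs at `a`, or `n + 2` if there is none -/
noncomputable def lt (x : ℤ → S) (a : ℤ) : ℕ :=
  if h : ∃ e, e ≤ n + 1 ∧ Ic s0 s1 n x a e then h.choose else n + 2

/-- the neighbour at distance `n + 6` -/
def nbl (d : Bool) (a : ℤ) : ℤ := if d then a - (n + 6) else a + (n + 6)

/-- the new letter at `a` -/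
noncomputable def Nw (k : ℕ) (d : Bool) (x : ℤ → S) (a : ℤ) : ℕ :=
  if lt s0 s1 n x (nbl n d a) = k then sw k (lt s0 s1 n x a) else lt s0 s1 n x a

/-- the cellular automaton that exchanges the code words of `0` and `k` next to a code word
of `k` (on its left side for `true`) -/
noncomputable def ga (k : ℕ) (d : Bool) (x : ℤ → S) : ℤ → S := fun i =>
  if h : ∃ j : ℕ, j < n + 6 ∧ lt s0 s1 n x (i - j) ≤ n + 1 then
    Wd s0 s1 (Nw s0 s1 n k d x (i - h.choose)) h.choose else x i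

variable {s0 s1 n}

lemma Wd_eq (h01 : s0 ≠ s1) {e j : ℕ} : Wd s0 s1 e j = s0 ↔ (j ≤ 1 ∨ j = e + 3) := by
  unfold Wd
  split_ifs with h
  · simp [h]
  · simp only [h, iff_false]
    exact fun h' => h01 h'.symm

lemma Ic_no (h01 : s0 ≠ s1) {x : ℤ → S} {a b : ℤ} {c e : ℕ} (hc : c ≤ n + 1) (hab : a < b)
    (hb : b < a + (n + 6)) (ha : Ic s0 s1 n x a c) (hbe : Ic s0 s1 n x b e) : False := by
  obtain ⟨k, hk⟩ : ∃ k : ℕ, b = a + k := ⟨(b - a).toNat, by omega⟩
  have h0 := hbe 0 (by omega)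
  have h1 := hbe 1 (by omega)
  rw [(Wd_eq h01).2 (by omega)] at h0
  rw [(Wd_eq h01).2 (by omega)] at h1
  have h2 := ha k (by omega)
  rw [← hk] at h2
  simp only [Nat.cast_zero, add_zero] at h0
  rw [h0] at h2
  have h3 := (Wd_eq h01).1 h2.symm
  by_cases hk2 : k + 1 < n + 6
  · have h4 := ha (k + 1) hk2
    have e1 : a + ((k + 1 : ℕ) : ℤ) = b + ((1 : ℕ) : ℤ) := by push_cast; omega
    rw [e1, h1] at h4
    have h5 := (Wd_eq h01).1 h4.symm
    omega
  · omega

lemma Ic_unique (h01 : s0 ≠ s1) {x : ℤ → S} {a : ℤ} {c e : ℕ} (hc : c ≤ n + 1)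
    (ha : Ic s0 s1 n x a c) (hbe : Ic s0 s1 n x a e) : c = e := by
  have h1 := ha (c + 3) (by omega)
  have h2 := hbe (c + 3) (by omega)
  rw [h1, (Wd_eq h01).2 (by omega)] at h2
  have h3 := (Wd_eq h01).1 h2.symm
  omega

lemma lt_iff (h01 : s0 ≠ s1) {x : ℤ → S} {a : ℤ} {e : ℕ} (he : e ≤ n + 1) :
    lt s0 s1 n x a = e ↔ Ic s0 s1 n x a e := by
  unfold lt
  constructor
  · intro h
    split_ifs at h with h1
    · rw [← h]; exact h1.choose_spec.2
    · omega
  · intro h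
    have h1 : ∃ e, e ≤ n + 1 ∧ Ic s0 s1 n x a e := ⟨e, he, h⟩
    rw [dif_pos h1]
    exact Ic_unique h01 h1.choose_spec.1 h1.choose_spec.2 h

lemma lt_le {x : ℤ → S} {a : ℤ} : lt s0 s1 n x a ≤ n + 2 := by
  unfold lt
  split_ifs with h1
  · have := h1.choose_spec.1; omega
  · exact le_rfl

lemma lt_eq_top {x : ℤ → S} {a : ℤ} : ¬ lt s0 s1 n x a ≤ n + 1 ↔ lt s0 s1 n x a = n + 2 := by
  have := lt_le (s0 := s0) (s1 := s1) (n := n) (x := x) (a := a)
  omega

lemma cov_unique (h01 : s0 ≠ s1) {x : ℤ → S} {i : ℤ} {j j' : ℕ} (hj : j < n + 6) (hj' : j' < n + 6)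
    (h : lt s0 s1 n x (i - j) ≤ n + 1) (h' : lt s0 s1 n x (i - j') ≤ n + 1) : j = j' := by
  have a1 := (lt_iff h01 h).1 rfl
  have a2 := (lt_iff h01 h').1 rfl
  rcases lt_trichotomy j j' with hh | hh | hh
  · exact (Ic_no h01 h' (by omega) (by omega) a2 a1).elim
  · exact hh
  · exact (Ic_no h01 h (by omega) (by omega) a1 a2).elim

lemma g_in (h01 : s0 ≠ s1) {k : ℕ} {d : Bool} {x : ℤ → S} {a : ℤ} {j : ℕ} (hj : j < n + 6)
    (h : lt s0 s1 n x a ≤ n + 1) : ga s0 s1 n k d x (a + j) = Wd s0 s1 (Nw s0 s1 n k d x a) j := by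
  have h1 : ∃ j' : ℕ, j' < n + 6 ∧ lt s0 s1 n x (a + j - j') ≤ n + 1 :=
    ⟨j, hj, by rwa [add_sub_cancel_right]⟩
  unfold ga
  rw [dif_pos h1]
  have h2 : h1.choose = j := by
    refine cov_unique (i := a + j) h01 h1.choose_spec.1 hj h1.choose_spec.2 ?_
    rwa [add_sub_cancel_right]
  rw [h2, add_sub_cancel_right]

lemma g_out {k : ℕ} {d : Bool} {x : ℤ → S} {i : ℤ}
    (h : ∀ j : ℕ, j < n + 6 → lt s0 s1 n x (i - j) = n + 2) : ga s0 s1 n k d x i = x i := by
  unfold ga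
  rw [dif_neg]
  rintro ⟨j, hj, h1⟩
  rw [h j hj] at h1
  omega

lemma sw_le {k e m : ℕ} (hk : k ≤ m) (he : e ≤ m) : sw k e ≤ m := by
  unfold sw; split_ifs <;> omega

lemma Nw_le {k : ℕ} {d : Bool} {x : ℤ → S} {a : ℤ} (hk : k ≤ n) (h : lt s0 s1 n x a ≤ n + 1) :
    Nw s0 s1 n k d x a ≤ n + 1 := by
  unfold Nw
  split_ifs
  · exact sw_le (by omega) h
  · exact h

/-- the letters of the image -/
lemma lt_g (h01 : s0 ≠ s1) {k : ℕ} {d : Bool} {x : ℤ → S} {a : ℤ} (hk : k ≤ n) :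
    lt s0 s1 n (ga s0 s1 n k d x) a = Nw s0 s1 n k d x a := by
  by_cases h : lt s0 s1 n x a ≤ n + 1
  · rw [lt_iff h01 (Nw_le hk h)]
    intro j hj
    exact g_in h01 hj h
  · have h' := lt_eq_top.1 h
    have e0 : sw k (n + 2) = n + 2 := by
      unfold sw
      rw [if_neg (by omega), if_neg (by omega)]
    have e1 : Nw s0 s1 n k d x a = n + 2 := by
      unfold Nw
      rw [h', e0, ite_self]
    rw [e1]
    by_contra hc
    have hc' : lt s0 s1 n (ga s0 s1 n k d x) a ≤ n + 1 := by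
      have := lt_le (s0 := s0) (s1 := s1) (n := n) (x := ga s0 s1 n k d x) (a := a)
      omega
    have hI := (lt_iff h01 hc').1 rfl
    have hunc : ∀ j : ℕ, j < n + 6 → ∀ j' : ℕ, j' < n + 6 →
        lt s0 s1 n x (a + j - j') = n + 2 := by
      intro j hj j' hj'
      by_contra hcc
      have h3 : lt s0 s1 n x (a + j - j') ≤ n + 1 := by
        have := lt_le (s0 := s0) (s1 := s1) (n := n) (x := x) (a := a + j - j')
        omega
      have h4 : Ic s0 s1 n (ga s0 s1 n k d x) (a + j - j') (Nw s0 s1 n k d x (a + j - j')) := by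
        intro t ht
        exact g_in h01 ht h3
      rcases lt_trichotomy a (a + j - j') with hh | hh | hh
      · exact Ic_no h01 hc' hh (by omega) hI h4
      · rw [← hh] at h3; exact h h3
      · exact Ic_no h01 (Nw_le hk h3) hh (by omega) h4 hI
    have hIx : Ic s0 s1 n x a (lt s0 s1 n (ga s0 s1 n k d x) a) := by
      intro j hj
      rw [← hI j hj, g_out (hunc j hj)]
    exact h ((lt_iff h01 hc').2 hIx ▸ hc')

lemma lt_congr (h01 : s0 ≠ s1) {x y : ℤ → S} {a : ℤ}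
    (h : ∀ i, a ≤ i → i < a + (n + 6) → x i = y i) : lt s0 s1 n x a = lt s0 s1 n y a := by
  have key : ∀ e, Ic s0 s1 n x a e ↔ Ic s0 s1 n y a e := by
    intro e
    constructor
    · intro hI j hj
      rw [← hI j hj, h _ (by omega) (by omega)]
    · intro hI j hj
      rw [← hI j hj, h _ (by omega) (by omega)]
  by_cases hx : lt s0 s1 n x a ≤ n + 1
  · exact ((lt_iff h01 hx).2 ((key _).1 ((lt_iff h01 hx).1 rfl))).symm
  · by_cases hy : lt s0 s1 n y a ≤ n + 1
    · exact (lt_iff h01 hy).2 ((key _).2 ((lt_iff h01 hy).1 rfl))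
    · rw [lt_eq_top.1 hx, lt_eq_top.1 hy]

/-- two configurations with the same letters and the same values outside the code words -/
lemma eq_of_lt (h01 : s0 ≠ s1) {x y : ℤ → S} {i : ℤ}
    (h : ∀ j : ℕ, j < n + 6 → lt s0 s1 n x (i - j) = lt s0 s1 n y (i - j))
    (hout : (∀ j : ℕ, j < n + 6 → lt s0 s1 n x (i - j) = n + 2) → x i = y i) : x i = y i := by
  by_cases hc : ∃ j : ℕ, j < n + 6 ∧ lt s0 s1 n x (i - j) ≤ n + 1
  · obtain ⟨j, hj, h1⟩ := hc
    have h2 := (lt_iff h01 h1).1 rfl j hj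
    have h1' : lt s0 s1 n y (i - j) ≤ n + 1 := by rw [← h j hj]; exact h1
    have h3 := (lt_iff h01 h1').1 rfl j hj
    rw [sub_add_cancel] at h2 h3
    rw [h2, h3, h j hj]
  · push Not at hc
    refine hout fun j hj => lt_eq_top.1 (by have := hc j hj; omega)

lemma g_loc (h01 : s0 ≠ s1) {k : ℕ} {d : Bool} (hk : k ≤ n) :
    Loc (ga s0 s1 n k d) (2 * (n + 6)) := by
  refine ⟨by positivity, fun x y i hxy => ?_⟩
  have hl : ∀ a : ℤ, i - 2 * (n + 6) ≤ a → a ≤ i + (n + 6) → lt s0 s1 n x a = lt s0 s1 n y a := by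
    intro a h1 h2
    refine lt_congr h01 fun t h3 h4 => hxy t (by omega) (by omega)
  refine eq_of_lt (n := n) h01 (fun j hj => ?_) (fun hout => ?_)
  · rw [lt_g h01 hk, lt_g h01 hk]
    unfold Nw
    have e1 : lt s0 s1 n x (i - j) = lt s0 s1 n y (i - j) := hl _ (by omega) (by omega)
    have e2 : lt s0 s1 n x (nbl n d (i - j)) = lt s0 s1 n y (nbl n d (i - j)) := by
      apply hl <;> (unfold nbl; split_ifs <;> omega)
    rw [e1, e2]
  · have o1 : ∀ j : ℕ, j < n + 6 → lt s0 s1 n x (i - j) = n + 2 := by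
      intro j hj
      by_contra hc
      have h3 : lt s0 s1 n x (i - j) ≤ n + 1 := by
        have := lt_le (s0 := s0) (s1 := s1) (n := n) (x := x) (a := i - j)
        omega
      have h4 := hout j hj
      rw [lt_g h01 hk] at h4
      have := Nw_le (k := k) (d := d) hk h3
      omega
    rw [g_out o1, g_out (fun j hj => by rw [← hl _ (by omega) (by omega)]; exact o1 j hj)]
    exact hxy i (by omega) (by omega)

lemma lt_shift (h01 : s0 ≠ s1) {x : ℤ → S} {a : ℤ} :
    lt s0 s1 n (shift x) a = lt s0 s1 n x (a + 1) := by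
  have key : ∀ e, Ic s0 s1 n (shift x) a e ↔ Ic s0 s1 n x (a + 1) e := by
    intro e
    unfold Ic shift
    refine forall_congr' fun j => ?_
    rw [add_right_comm]
  by_cases hx : lt s0 s1 n (shift x) a ≤ n + 1
  · exact ((lt_iff h01 hx).2 ((key _).1 ((lt_iff h01 hx).1 rfl))).symm
  · by_cases hy : lt s0 s1 n x (a + 1) ≤ n + 1
    · exact (lt_iff h01 hy).2 ((key _).2 ((lt_iff h01 hy).1 rfl))
    · rw [lt_eq_top.1 hx, lt_eq_top.1 hy]

lemma Nw_shift (h01 : s0 ≠ s1) {k : ℕ} {d : Bool} {x : ℤ → S} {a : ℤ} :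
    Nw s0 s1 n k d (shift x) a = Nw s0 s1 n k d x (a + 1) := by
  unfold Nw
  rw [lt_shift h01, lt_shift h01]
  have : nbl n d a + 1 = nbl n d (a + 1) := by unfold nbl; split_ifs <;> ring
  rw [this]

lemma g_comm (h01 : s0 ≠ s1) {k : ℕ} {d : Bool} : Comm (ga s0 s1 n k d) := by
  intro x
  funext i
  by_cases hc : ∃ j : ℕ, j < n + 6 ∧ lt s0 s1 n x (i + 1 - j) ≤ n + 1
  · obtain ⟨j, hj, h1⟩ := hc
    have e1 : i = (i - j) + (j : ℤ) := by ring
    have e2 : i + 1 = (i + 1 - j) + (j : ℤ) := by ring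
    have h2 : lt s0 s1 n (shift x) (i - j) ≤ n + 1 := by
      rw [lt_shift h01]; convert h1 using 2; ring
    have l1 := g_in (k := k) (d := d) h01 hj h2
    have l2 := g_in (k := k) (d := d) h01 hj h1
    rw [← e1] at l1
    rw [← e2] at l2
    show ga s0 s1 n k d (shift x) i = ga s0 s1 n k d x (i + 1)
    rw [l1, l2, Nw_shift h01]
    congr 2
    ring
  · push Not at hc
    have h1 : ∀ j : ℕ, j < n + 6 → lt s0 s1 n x (i + 1 - j) = n + 2 := fun j hj =>
      lt_eq_top.1 (by have := hc j hj; omega)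
    show ga s0 s1 n k d (shift x) i = ga s0 s1 n k d x (i + 1)
    rw [g_out h1, g_out]
    · rfl
    · intro j hj
      rw [lt_shift h01, ← h1 j hj]
      congr 1
      ring

lemma sw_inj {k e e' : ℕ} (h : sw k e = sw k e') : e = e' := by
  unfold sw at h
  split_ifs at h <;> omega

lemma g_eq (h01 : s0 ≠ s1) {k : ℕ} {d : Bool} (_ : k ≤ n) {x y : ℤ → S}
    (hg : ga s0 s1 n k d x = ga s0 s1 n k d y)
    (hl : ∀ a, lt s0 s1 n x a = lt s0 s1 n y a) : x = y := by
  funext i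
  refine eq_of_lt (n := n) h01 (fun j _ => hl _) fun hout => ?_
  have h1 := congrFun hg i
  rw [g_out hout, g_out (fun j hj => by rw [← hl]; exact hout j hj)] at h1
  exact h1

lemma Nw_eq (h01 : s0 ≠ s1) {k : ℕ} {d : Bool} (hk : k ≤ n) {x y : ℤ → S}
    (hg : ga s0 s1 n k d x = ga s0 s1 n k d y) (a : ℤ)
    (hn : lt s0 s1 n x (nbl n d a) = lt s0 s1 n y (nbl n d a)) :
    lt s0 s1 n x a = lt s0 s1 n y a := by
  have h1 : Nw s0 s1 n k d x a = Nw s0 s1 n k d y a := by
    rw [← lt_g h01 hk, ← lt_g h01 hk, hg]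
  unfold Nw at h1
  rw [hn] at h1
  split_ifs at h1 with h2
  · exact sw_inj h1
  · exact h1

lemma g_right (h01 : s0 ≠ s1) {k : ℕ} (hk : k ≤ n) : RightClosing (ga s0 s1 n k true) := by
  rintro x y ⟨N, hN⟩ hg
  refine g_eq h01 hk hg ?_
  have key : ∀ m : ℕ, ∀ a : ℤ, a ≤ N - (n + 6) + m → lt s0 s1 n x a = lt s0 s1 n y a := by
    intro m
    induction m with
    | zero =>
      intro a ha
      exact lt_congr h01 fun i _ h2 => hN i (by push_cast at ha; omega)
    | succ m ih =>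
      intro a ha
      refine Nw_eq h01 hk hg a (ih _ ?_)
      show a - (n + 6) ≤ _
      push_cast at ha
      omega
  intro a
  exact key (a - (N - (n + 6))).toNat a (by omega)

lemma g_left (h01 : s0 ≠ s1) {k : ℕ} (hk : k ≤ n) : LeftClosing (ga s0 s1 n k false) := by
  rintro x y ⟨N, hN⟩ hg
  refine g_eq h01 hk hg ?_
  have key : ∀ m : ℕ, ∀ a : ℤ, N - m ≤ a → lt s0 s1 n x a = lt s0 s1 n y a := by
    intro m
    induction m with
    | zero =>
      intro a ha
      exact lt_congr h01 fun i h1 _ => hN i (by push_cast at ha; omega)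
    | succ m ih =>
      intro a ha
      refine Nw_eq h01 hk hg a (ih _ ?_)
      show _ ≤ a + (n + 6)
      push_cast at ha
      omega
  intro a
  exact key (N - a).toNat a (by omega)

end

end Pool.Agent.H624CA
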