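import Pool.Agent.H624CA.Main

/-!
The obstruction relative to a partition: a right-closing factor merges two classes of constant
configurations only if they have the same left-asymptotic images.
-/

namespace Pool.Agent.H624CA

variable {A : Type}

theorem core2 [Finite A] {f φ h : (ℤ → A) → (ℤ → A)} (hf : ∀ x, f x = φ (h x)) {r r' : ℤ}
    (Lh : Loc h r) (Lφ : Loc φ r') (Ch : Comm h) (Cφ : Comm φ) (sh : Function.Surjective h)
    {o : A} {P : Set A} (A0 : ∀ s ∈ P, f (cst s) = cst o)
    (A1 : ∀ (x : ℤ → A) (a b : ℤ), a ≤ b → (∀ i, a ≤ i → i ≤ b → f x i = o) →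
      ∃ s ∈ P, ∀ i, a ≤ i → i ≤ b → x i = s)
    {E : A → A → Prop}
    (Rc : ∀ (x y : ℤ → A), ∀ s ∈ P, ∀ t ∈ P, ∀ t' ∈ P, LA x s → LA y s → RA x t → RA y t' →
      h x = h y → E t t')
    {p q : A} (hp : p ∈ P) (hq : q ∈ P) (hpq : h (cst p) = h (cst q))
    {x1 : ℤ → A} (x1L : LA x1 p) {u1 : A} (hu1 : u1 ∈ P) (x1R : RA x1 u1)
    (hno : ∀ q' ∈ P, E q' q → ¬ ∃ y, LA y q' ∧ f y = f x1) : False := by
  classical
  set κ := h (cst p) 0 with hκ
  have hκq : h (cst q) 0 = κ := by rw [← hpq]
  let good : (ℤ → A) → Prop := fun w =>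
    ∃ c ∈ P, ∃ d ∈ P, ∃ x, LA x c ∧ RA x d ∧ h x = w ∧ h (cst c) 0 = κ
  let dom : (ℤ → A) → Set A := fun w => {c | c ∈ P ∧ ∃ x, LA x c ∧ h x = w}
  have hex : ∃ w, good w ∧ ∀ w', good w' → (dom w).ncard ≤ (dom w').ncard := by
    let N : Set ℕ := (fun w => (dom w).ncard) '' {w | good w}
    have hN : N.Nonempty := ⟨_, h (cst p), ⟨p, hp, p, hp, cst p, ⟨0, fun _ _ => rfl⟩,
      ⟨0, fun _ _ => rfl⟩, rfl, rfl⟩, rfl⟩
    obtain ⟨w, hw, hw'⟩ := Nat.sInf_mem hN
    refine ⟨w, hw, fun w' hw'' => ?_⟩
    have h1 : sInf N ≤ (dom w').ncard := Nat.sInf_le ⟨w', hw'', rfl⟩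
    have h2 : (dom w).ncard = sInf N := hw'
    omega
  obtain ⟨w, ⟨c, hc, d, hd, xs, ⟨N0, xsL⟩, ⟨N1, xsR⟩, rfl, hκc⟩, hmin⟩ := hex
  obtain ⟨M0, x1L⟩ := x1L
  obtain ⟨M1, x1R⟩ := x1R
  have hr := Lh.1
  have hr' := Lφ.1
  set K := 10 * (r + r' + 1) with hK
  obtain ⟨a, haN0, haN1⟩ : ∃ a : ℤ, N0 + K ≤ a ∧ N1 + K ≤ a :=
    ⟨max N0 N1 + K, by have := le_max_left N0 N1; omega, by have := le_max_right N0 N1; omega⟩
  set e := a + K with he
  set m := e - M0 with hm
  set x2 : ℤ → A := fun i => if i < a then xs i else q with hx2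
  set wn : ℤ → A := fun i => if i < a + r then h x2 i else h x1 (i - m) with hwn
  have F1 : ∀ i, a + r ≤ i → h x2 i = κ := by
    intro i hi
    rw [← hκq]
    refine loc_cst Lh Ch fun j h1 h2 => ?_
    have : ¬ j < a := by omega
    simp only [hx2, this, if_false]
  have F2 : ∀ i, i ≤ e - r → h x1 (i - m) = κ := by
    intro i hi
    refine loc_cst Lh Ch fun j h1 h2 => x1L j (by omega)
  have F3 : ∀ i, i < a - r → h x2 i = h xs i := by
    intro i hi
    refine Lh.2 _ _ _ fun j h1 h2 => ?_
    have : j < a := by omega
    simp only [hx2, this, if_true]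
  have F4 : ∀ i, N1 + r ≤ i → h xs i = h (cst d) 0 := by
    intro i hi
    exact loc_cst Lh Ch fun j h1 h2 => xsR j (by omega)
  have F5 : ∀ i, a + r ≤ i → i ≤ e - r → wn i = κ := by
    intro i h1 h2
    have : ¬ i < a + r := by omega
    simp only [hwn, this, if_false]
    exact F2 i h2
  have F6 : ∀ i, i < a - r → wn i = h xs i := by
    intro i h1
    have : i < a + r := by omega
    simp only [hwn, this, if_true]
    exact F3 i h1
  have F7 : ∀ i, a + r ≤ i → wn i = h x1 (i - m) := by
    intro i h1
    have : ¬ i < a + r := by omega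
    simp only [hwn, this, if_false]
  have F8 : ∀ i, i < a + r → wn i = h x2 i := by
    intro i h1
    simp only [hwn, h1, if_true]
  have φκ : ∀ s ∈ P, φ (cst (h (cst s) 0)) 0 = o := by
    intro s hs
    rw [← Ch.cst_eq s, ← hf, A0 s hs]; rfl
  have fx : ∀ (x : ℤ → A) (i : ℤ) (s : A), s ∈ P → h x = wn →
      (∀ j, i - r' ≤ j → j ≤ i + r' → wn j = h (cst s) 0) → f x i = o := by
    intro x i s hs hx hj
    rw [hf, hx, loc_cst Lφ Cφ hj]
    exact φκ s hs
  -- the new word is good
  have hgood : good wn := by
    obtain ⟨xn, hxn⟩ := sh wn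
    have hl : ∀ i, i ≤ N0 - r → wn i = κ := by
      intro i hi
      rw [F6 i (by omega), ← hκc]
      exact loc_cst Lh Ch fun j h1 h2 => xsL j (by omega)
    obtain ⟨c', hc', hxnL⟩ := run_left A1 (x := xn) (b := N0 - r - r') fun i hi =>
      fx xn i p hp hxn fun j h1 h2 => hl j (by omega)
    have hrr : ∀ i, M1 + m + r ≤ i → a + r ≤ i → wn i = h (cst u1) 0 := by
      intro i hi hi'
      rw [F7 i hi']
      exact loc_cst Lh Ch fun j h1 h2 => x1R j (by omega)
    obtain ⟨d', hd', hxnR⟩ := run_right A1 (x := xn)
      (a := max (M1 + m + r) (a + r) + r') fun i hi =>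
      fx xn i u1 hu1 hxn fun j h1 h2 => hrr j
        (by have := le_max_left (M1 + m + r) (a + r); omega)
        (by have := le_max_right (M1 + m + r) (a + r); omega)
    refine ⟨c', hc', d', hd', xn, ⟨_, hxnL⟩, ⟨_, hxnR⟩, hxn, ?_⟩
    have h1 : h xn (N0 - r - r' - r) = h (cst c') 0 :=
      loc_cst Lh Ch fun j h1 h2 => hxnL j (by omega)
    rw [← h1, hxn]
    exact hl _ (by omega)
  have hsub : dom wn ⊆ dom (h xs) \ {c} := by
    rintro e' ⟨he', x, ⟨N, hxN⟩, hx⟩
    constructor
    · refine ⟨he', ?_⟩
      obtain ⟨t1, ht1, hst⟩ := A1 x (N1 + r + r') (a - r - r' - 1) (by omega) fun i h1 h2 =>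
        fx x i d hd hx fun j h3 h4 => by rw [F6 j (by omega)]; exact F4 j (by omega)
      have hk : h (cst t1) 0 = h (cst d) 0 := by
        have e1 : h x (N1 + 2 * r + r') = h (cst t1) 0 :=
          loc_cst Lh Ch fun j h1 h2 => hst j (by omega) (by omega)
        rw [← e1, hx, F6 _ (by omega)]
        exact F4 _ (by omega)
      refine ⟨fun i => if i < a - r - r' then x i else t1, ⟨min N (a - r - r' - 1), ?_⟩, ?_⟩
      · intro i hi
        have h1 : i < a - r - r' := by have := min_le_right N (a - r - r' - 1); omega
        simp only [h1, if_true]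
        exact hxN i (by have := min_le_left N (a - r - r' - 1); omega)
      · funext i
        by_cases hi : i < a - r - r' - r
        · have : h (fun i => if i < a - r - r' then x i else t1) i = h x i := by
            refine Lh.2 _ _ _ fun j h1 h2 => ?_
            have : j < a - r - r' := by omega
            simp only [this, if_true]
          rw [this, hx]
          exact F6 i (by omega)
        · rw [F4 i (by omega), ← hk]
          refine loc_cst Lh Ch fun j h1 h2 => ?_
          by_cases hj : j < a - r - r'
          · simp only [hj, if_true]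
            exact hst j (by omega) (by omega)
          · simp only [hj, if_false]
    · rintro (rfl : e' = c)
      obtain ⟨t2, ht2, hst⟩ := A1 x (a + r + r') (e - r - r') (by omega) fun i h1 h2 =>
        fx x i p hp hx fun j h3 h4 => F5 j (by omega) (by omega)
      have hk : h (cst t2) 0 = κ := by
        have e1 : h x (a + 2 * r + r') = h (cst t2) 0 :=
          loc_cst Lh Ch fun j h1 h2 => hst j (by omega) (by omega)
        rw [← e1, hx]
        exact F5 _ (by omega) (by omega)
      have h2q : E t2 q := by
        refine Rc (fun i => if i < e - r - r' then x i else t2) x2 e' he' t2 ht2 q hq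
          ⟨min N (e - r - r' - 1), ?_⟩ ⟨min N0 (a - 1), ?_⟩ ⟨e - r - r', ?_⟩ ⟨a, ?_⟩ ?_
        · intro i hi
          have h1 : i < e - r - r' := by have := min_le_right N (e - r - r' - 1); omega
          simp only [h1, if_true]
          exact hxN i (by have := min_le_left N (e - r - r' - 1); omega)
        · intro i hi
          have h1 : i < a := by have := min_le_right N0 (a - 1); omega
          simp only [hx2, h1, if_true]
          exact xsL i (by have := min_le_left N0 (a - 1); omega)
        · intro i hi
          have h1 : ¬ i < e - r - r' := by omega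
          simp only [h1, if_false]
        · intro i hi
          have h1 : ¬ i < a := by omega
          simp only [hx2, h1, if_false]
        · funext i
          by_cases hi : i < e - r - r' - r
          · have : h (fun i => if i < e - r - r' then x i else t2) i = h x i := by
              refine Lh.2 _ _ _ fun j h1 h2 => ?_
              have : j < e - r - r' := by omega
              simp only [this, if_true]
            rw [this, hx]
            by_cases hi2 : i < a + r
            · exact F8 i hi2
            · rw [F1 i (by omega)]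
              exact F5 i (by omega) (by omega)
          · rw [F1 i (by omega), ← hk]
            refine loc_cst Lh Ch fun j h1 h2 => ?_
            by_cases hj : j < e - r - r'
            · simp only [hj, if_true]
              exact hst j (by omega) (by omega)
            · simp only [hj, if_false]
      set x3 : ℤ → A := fun i => if i < a + r + r' then t2 else x i with hx3
      have hx3' : ∀ i, h x3 i = h x1 (i - m) := by
        intro i
        by_cases hi : a + r + r' + r ≤ i
        · have : h x3 i = h x i := by
            refine Lh.2 _ _ _ fun j h1 h2 => ?_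
            have : ¬ j < a + r + r' := by omega
            simp only [hx3, this, if_false]
          rw [this, hx]
          exact F7 i (by omega)
        · rw [F2 i (by omega), ← hk]
          refine loc_cst Lh Ch fun j h1 h2 => ?_
          by_cases hj : j < a + r + r'
          · simp only [hx3, hj, if_true]
          · simp only [hx3, hj, if_false]
            exact hst j (by omega) (by omega)
      refine hno t2 ht2 h2q ⟨fun i => x3 (i + m), ⟨a + r + r' - 1 - m, ?_⟩, ?_⟩
      · intro i hi
        have : i + m < a + r + r' := by omega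
        simp only [hx3, this, if_true]
      · rw [hf, hf, Ch.int x3 m]
        congr 1
        funext i
        rw [hx3']
        congr 1
        ring
  have hcdom : c ∈ dom (h xs) := ⟨hc, xs, ⟨N0, xsL⟩, rfl⟩
  have hlt : (dom wn).ncard < (dom (h xs)).ncard := by
    calc (dom wn).ncard ≤ (dom (h xs) \ {c}).ncard := Set.ncard_le_ncard hsub (Set.toFinite _)
      _ < (dom (h xs)).ncard := by
        refine Set.ncard_lt_ncard ?_ (Set.toFinite _)
        refine ⟨Set.sdiff_subset, fun hcon => ?_⟩
        exact (hcon hcdom).2 rfl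
  have := hmin wn hgood
  omega

end Pool.Agent.H624CA
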