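import Pool.Agent.H624CB.Main2
import Pool.Agent.H624CA.Myhill

/-!
Passage to blocks of length `l`.
-/

namespace Pool.Agent.H624CA

variable {S : Type} (l : ℕ)

/-- cut a configuration into blocks of length `l` -/
def Bll (x : ℤ → S) : ℤ → (Fin l → S) := fun k j => x (l * k + (j : ℕ))

/-- join blocks -/
def Bil [NeZero l] (X : ℤ → (Fin l → S)) : ℤ → S := fun i =>
  X (i / l) ⟨(i % l).toNat, by
    have h0 : (0 : ℤ) < l := by exact_mod_cast Nat.pos_of_ne_zero (NeZero.ne l)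
    have h1 := Int.emod_lt_of_pos i h0
    have h2 := Int.emod_nonneg i h0.ne'
    omega⟩

/-- the map on blocks -/
def hatl [NeZero l] (f : (ℤ → S) → (ℤ → S)) : (ℤ → (Fin l → S)) → (ℤ → (Fin l → S)) :=
  fun X => Bll l (f (Bil l X))

variable {l} [NeZero l]

omit [NeZero l] in
lemma lpos' (h : l ≠ 0) : (0 : ℤ) < l := by exact_mod_cast Nat.pos_of_ne_zero h

lemma Bil_apply (X : ℤ → (Fin l → S)) (k : ℤ) (j : Fin l) :
    Bil l X (l * k + (j : ℕ)) = X k j := by
  have h0 : (0 : ℤ) < l := lpos' (NeZero.ne l)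
  have hj : ((j : ℕ) : ℤ) < l := by exact_mod_cast j.2
  have hj0 : (0 : ℤ) ≤ ((j : ℕ) : ℤ) := by positivity
  have h1 : ((l : ℤ) * k + ((j : ℕ) : ℤ)) / l = k := by
    rw [Int.mul_add_ediv_left _ _ h0.ne', Int.ediv_eq_zero_of_lt hj0 hj, add_zero]
  have h3 : ((l : ℤ) * k + ((j : ℕ) : ℤ)) % l = ((j : ℕ) : ℤ) := by
    rw [Int.mul_add_emod_self_left, Int.emod_eq_of_lt hj0 hj]
  unfold Bil
  have h2 : ∀ hh, (⟨(((l : ℤ) * k + ((j : ℕ) : ℤ)) % l).toNat, hh⟩ : Fin l) = j := by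
    intro hh
    apply Fin.ext
    show (((l : ℤ) * k + ((j : ℕ) : ℤ)) % l).toNat = j
    rw [h3]; simp
  rw [h2, h1]

lemma Bll_Bil (X : ℤ → (Fin l → S)) : Bll l (Bil l X) = X := by
  funext k j
  exact Bil_apply X k j

lemma Bil_Bll (x : ℤ → S) : Bil l (Bll l x) = x := by
  funext i
  have h0 : (0 : ℤ) < l := lpos' (NeZero.ne l)
  have h2 := Int.emod_nonneg i h0.ne'
  have h3 := Int.mul_ediv_add_emod i l
  unfold Bil Bll
  simp only
  congr 1
  omega

lemma Bil_inj {X Y : ℤ → (Fin l → S)} (h : Bil l X = Bil l Y) : X = Y := by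
  rw [← Bll_Bil X, h, Bll_Bil]

lemma Bll_inj {x y : ℤ → S} (h : Bll l x = Bll l y) : x = y := by
  rw [← Bil_Bll (l := l) x, h, Bil_Bll]

lemma hatl_id : hatl l (id : (ℤ → S) → (ℤ → S)) = id := by
  funext X; exact Bll_Bil X

lemma hatl_comp (g h : (ℤ → S) → (ℤ → S)) : hatl l (g ∘ h) = hatl l g ∘ hatl l h := by
  funext X
  simp only [hatl, Function.comp, Bil_Bll]

lemma hatl_loc {f : (ℤ → S) → (ℤ → S)} {r : ℤ} (L : Loc f r) : Loc (hatl l f) (r + 1) := by
  have hr := L.1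
  have h0 : (0 : ℤ) < l := lpos' (NeZero.ne l)
  refine ⟨by omega, fun X Y k hXY => ?_⟩
  funext j
  refine L.2 _ _ _ fun t h1 h2 => ?_
  unfold Bil
  have hj : ((j : ℕ) : ℤ) < l := by exact_mod_cast j.2
  have hj0 : (0 : ℤ) ≤ ((j : ℕ) : ℤ) := by positivity
  have e2 := Int.emod_nonneg t h0.ne'
  have e1 := Int.emod_lt_of_pos t h0
  have e3 := Int.mul_ediv_add_emod t l
  rw [hXY (t / l) (by
    by_contra hc
    push Not at hc
    nlinarith) (by
    by_contra hc
    push Not at hc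
    nlinarith)]

lemma hatl_comm {f : (ℤ → S) → (ℤ → S)} (C : Comm f) : Comm (hatl l f) := by
  intro X
  have h0 : (0 : ℤ) < l := lpos' (NeZero.ne l)
  have h1 : Bil l (shift X) = fun i => Bil l X (i + l) := by
    funext i
    unfold Bil shift
    have e1 : (i + l) / l = i / l + 1 := by
      rw [Int.add_ediv_of_dvd_right (dvd_refl _), Int.ediv_self h0.ne']
    have e2 : (i + l) % l = i % l := by simp
    simp only [e1, e2]
  funext k j
  simp only [hatl]
  rw [h1, C.int]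
  unfold Bll shift
  ring_nf

lemma hatl_surj {f : (ℤ → S) → (ℤ → S)} (H : Function.Surjective f) :
    Function.Surjective (hatl l f) := by
  intro Y
  obtain ⟨x, hx⟩ := H (Bil l Y)
  exact ⟨Bll l x, by simp only [hatl, Bil_Bll, hx, Bll_Bil]⟩

lemma hatl_right {f : (ℤ → S) → (ℤ → S)} (H : RightClosing f) : RightClosing (hatl l f) := by
  have h0 : (0 : ℤ) < l := lpos' (NeZero.ne l)
  rintro X Y ⟨N, hN⟩ h
  refine Bil_inj (H _ _ ⟨l * N, fun i hi => ?_⟩ (Bll_inj h))
  unfold Bil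
  have e2 := Int.emod_nonneg i h0.ne'
  have e3 := Int.mul_ediv_add_emod i l
  rw [hN (i / l) (by
    by_contra hc
    push Not at hc
    nlinarith)]

lemma hatl_left {f : (ℤ → S) → (ℤ → S)} (H : LeftClosing f) : LeftClosing (hatl l f) := by
  have h0 : (0 : ℤ) < l := lpos' (NeZero.ne l)
  rintro X Y ⟨N, hN⟩ h
  refine Bil_inj (H _ _ ⟨l * N, fun i hi => ?_⟩ (Bll_inj h))
  unfold Bil
  have e1 := Int.emod_lt_of_pos i h0
  have e3 := Int.mul_ediv_add_emod i l
  rw [hN (i / l) (by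
    by_contra hc
    push Not at hc
    nlinarith)]

lemma closing_surj' [Finite S] {g : (ℤ → S) → (ℤ → S)} (hg : IsCA g)
    (hc : RightClosing g ∨ LeftClosing g) : Function.Surjective g := by
  obtain ⟨r, L⟩ := loc_of_cont hg.cont hg.comm
  refine myhill L hg.comm fun x y ⟨N, hN⟩ hxy => ?_
  rcases hc with h | h
  · exact h x y ⟨-N, fun i hi => hN i (Or.inl hi)⟩ hxy
  · exact h x y ⟨N, fun i hi => hN i (Or.inr hi)⟩ hxy

lemma compN_of_lev [Finite S] : ∀ (k : ℕ) (b : Bool) (f : (ℤ → S) → (ℤ → S)), f ∈ Lev S k b →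
    CompN k (hatl l f) := by
  intro k
  induction k with
  | zero =>
    intro b f hf
    have : f = id := by cases b <;> exact hf
    rw [this, hatl_id]
    exact CompN.id
  | succ k ih =>
    intro b f hf
    cases b with
    | true =>
      obtain ⟨g, h, hg, hc, hh, rfl⟩ := hf
      obtain ⟨r, L⟩ := loc_of_cont hg.cont hg.comm
      rw [hatl_comp]
      exact CompN.step _ _ _ ⟨_, hatl_loc L⟩ (hatl_comm hg.comm)
        (hatl_surj (closing_surj' hg (Or.inr hc))) (Or.inr (hatl_left hc)) (ih _ _ hh)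
    | false =>
      obtain ⟨g, h, hg, hc, hh, rfl⟩ := hf
      obtain ⟨r, L⟩ := loc_of_cont hg.cont hg.comm
      rw [hatl_comp]
      exact CompN.step _ _ _ ⟨_, hatl_loc L⟩ (hatl_comm hg.comm)
        (hatl_surj (closing_surj' hg (Or.inl hc))) (Or.inl (hatl_right hc)) (ih _ _ hh)

end Pool.Agent.H624CA
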