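import Pool.Agent.H624CB.Core2

/-!
Compositions of `m` one-sided closing maps: in at most `m` steps at most `m + 1` classes are merged.
-/

namespace Pool.Agent.H624CA

variable {A : Type}

/-- compositions of `m` local, shift-commuting, surjective, one-sided closing maps -/
inductive CompN : ℕ → ((ℤ → A) → (ℤ → A)) → Prop
  | id : CompN 0 id
  | step (m : ℕ) (g h : (ℤ → A) → (ℤ → A)) : (∃ r, Loc g r) → Comm g → Function.Surjective g →
      (RightClosing g ∨ LeftClosing g) → CompN m h → CompN (m + 1) (g ∘ h)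

lemma CompN.props {m : ℕ} {h : (ℤ → A) → (ℤ → A)} (H : CompN m h) :
    (∃ r, Loc h r) ∧ Comm h ∧ Function.Surjective h := by
  induction H with
  | id => exact ⟨⟨0, le_rfl, fun x y i h => h i (by omega) (by omega)⟩, fun x => rfl,
      fun x => ⟨x, rfl⟩⟩
  | step m g h Lg Cg sg _ _ ih =>
    obtain ⟨r, Lg⟩ := Lg
    obtain ⟨⟨s, Lh⟩, Ch, sh⟩ := ih
    refine ⟨⟨_, Lg.comp Lh⟩, fun x => ?_, sg.comp sh⟩
    simp only [Function.comp]
    rw [Ch, Cg]

/-- the facts about `f` used by the obstruction -/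
structure SData (f : (ℤ → A) → (ℤ → A)) (o : A) (n : ℕ) (t : ℕ → A) : Prop where
  inj : ∀ i ≤ n, ∀ j ≤ n, t i = t j → i = j
  A0 : ∀ i ≤ n, f (cst (t i)) = cst o
  A1 : ∀ (x : ℤ → A) (a b : ℤ), a ≤ b → (∀ i, a ≤ i → i ≤ b → f x i = o) →
      ∃ s ≤ n, ∀ i, a ≤ i → i ≤ b → x i = t s
  RS : ∀ i j k : ℕ, i < j → j ≤ n → 1 ≤ k → k < j → ∃ x, ∃ u ≤ n, LA x (t j) ∧ RA x (t u) ∧
      ∀ i', (i' = i ∨ (i < k ∧ i' < k)) → ¬ ∃ y, LA y (t i') ∧ f y = f x
  LS : ∀ i j k : ℕ, i < j → j ≤ n → 1 ≤ k → k < j → ∃ x, ∃ u ≤ n, RA x (t j) ∧ LA x (t u) ∧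
      ∀ i', (i' = i ∨ (i < k ∧ i' < k)) → ¬ ∃ y, RA y (t i') ∧ f y = f x

theorem compN_stage [Finite A] {f : (ℤ → A) → (ℤ → A)} {o : A} {n : ℕ} {t : ℕ → A}
    (D : SData f o n t) {m : ℕ} {h : (ℤ → A) → (ℤ → A)} (H : CompN m h) :
    ∀ φ : (ℤ → A) → (ℤ → A), (∃ r, Loc φ r) → Comm φ →
      (∀ x, f x = φ (h x)) → ∀ i ≤ n, ∀ j ≤ n, h (cst (t i)) = h (cst (t j)) →
        i = j ∨ (i < m + 1 ∧ j < m + 1) := by
  induction H with
  | id =>
    intro φ _ _ _ i hi j hj hst
    exact Or.inl (D.inj i hi j hj (congrFun hst 0))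
  | step m g h Lg Cg sg hg Hh ih =>
    rintro φ ⟨rφ, Lφ⟩ Cφ hf
    obtain ⟨⟨rh0, Lh⟩, Ch, sh⟩ := Hh.props
    obtain ⟨rg, Lg⟩ := Lg
    have Cgh : Comm (g ∘ h) := by intro x; simp only [Function.comp]; rw [Ch, Cg]
    have stg : ∀ i ≤ n, ∀ j ≤ n, h (cst (t i)) = h (cst (t j)) →
        i = j ∨ (i < m + 1 ∧ j < m + 1) := by
      refine ih (φ ∘ g) ⟨_, Lφ.comp Lg⟩ ?_ hf
      intro x; simp only [Function.comp]; rw [Cg, Cφ]
    have hL : ∀ {x : ℤ → A} {a : A}, LA x a → ∃ N : ℤ, ∀ i, i ≤ N → h x i = h (cst a) 0 := by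
      rintro x a ⟨N, hN⟩
      have := Lh.1
      exact ⟨N - rh0, fun i hi => loc_cst Lh Ch fun j _ h2 => hN j (by omega)⟩
    have hR : ∀ {x : ℤ → A} {a : A}, RA x a → ∃ N : ℤ, ∀ i, N ≤ i → h x i = h (cst a) 0 := by
      rintro x a ⟨N, hN⟩
      have := Lh.1
      exact ⟨N + rh0, fun i hi => loc_cst Lh Ch fun j h1 _ => hN j (by omega)⟩
    have cc : ∀ {a b : A}, h (cst a) 0 = h (cst b) 0 → h (cst a) = h (cst b) := by
      intro a b hab
      rw [Ch.cst_eq a, Ch.cst_eq b, hab]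
    let P : Set A := {a | ∃ i ≤ n, a = t i}
    let E : A → A → Prop := fun a b => h (cst a) = h (cst b)
    have PA0 : ∀ s ∈ P, f (cst s) = cst o := by
      rintro _ ⟨i, hi, rfl⟩; exact D.A0 i hi
    have PA1 : ∀ (x : ℤ → A) (a b : ℤ), a ≤ b → (∀ i, a ≤ i → i ≤ b → f x i = o) →
      ∃ s ∈ P, ∀ i, a ≤ i → i ≤ b → x i = s := by
      intro x a b hab hx
      obtain ⟨s, hs, hst⟩ := D.A1 x a b hab hx
      exact ⟨t s, ⟨s, hs, rfl⟩, hst⟩
    have main : ∀ i j : ℕ, i < j → j ≤ n → (g ∘ h) (cst (t i)) = (g ∘ h) (cst (t j)) →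
        j < m + 1 + 1 := by
      intro i j hij hj hst
      by_contra hcon
      have hcon' : m + 2 ≤ j := by omega
      have hcl : ∀ i' ≤ n, E (t i') (t i) → (i' = i ∨ (i < m + 1 ∧ i' < m + 1)) := by
        intro i' hi' hE
        rcases stg i' hi' i (by omega) hE with h1 | h1
        · exact Or.inl h1
        · exact Or.inr ⟨h1.2, h1.1⟩
      rcases hg with hg | hg
      · -- right closing
        have Rc : ∀ (x y : ℤ → A), ∀ s ∈ P, ∀ t ∈ P, ∀ t' ∈ P, LA x s → LA y s → RA x t →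
            RA y t' → (g ∘ h) x = (g ∘ h) y → E t t' := by
          intro x y s _ t ht t' ht' hx hy hxt hyt hxy
          obtain ⟨N1, h1⟩ := hL hx
          obtain ⟨N2, h2⟩ := hL hy
          have e : h x = h y := hg _ _ ⟨min N1 N2, fun i hi => by
            rw [h1 i (le_trans hi (min_le_left _ _)), h2 i (le_trans hi (min_le_right _ _))]⟩ hxy
          obtain ⟨M1, h3⟩ := hR hxt
          obtain ⟨M2, h4⟩ := hR hyt
          refine cc ?_
          rw [← h3 (max M1 M2) (le_max_left _ _), ← h4 (max M1 M2) (le_max_right _ _), e]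
        obtain ⟨x, u, hu, hxj, hxu, hno⟩ := D.RS i j (m + 1) hij hj (by omega) (by omega)
        refine core2 (h := g ∘ h) (E := E) hf (Lg.comp Lh) Lφ Cgh Cφ (sg.comp sh) PA0 PA1 Rc
          (p := t j) (q := t i) ⟨j, hj, rfl⟩ ⟨i, by omega, rfl⟩ hst.symm hxj (u1 := t u)
          ⟨u, hu, rfl⟩ hxu ?_
        rintro _ ⟨i', hi', rfl⟩ hE
        exact hno i' (hcl i' hi' hE)
      · -- left closing
        have Rc : ∀ (x y : ℤ → A), ∀ s ∈ P, ∀ t ∈ P, ∀ t' ∈ P, LA x s → LA y s → RA x t →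
            RA y t' → rh (g ∘ h) x = rh (g ∘ h) y → E t t' := by
          intro x y s _ t ht t' ht' hx hy hxt hyt hxy
          have hx' := RA_rv.2 hx
          have hy' := RA_rv.2 hy
          have hxt' := LA_rv.2 hxt
          have hyt' := LA_rv.2 hyt
          have hxy' : g (h (rv x)) = g (h (rv y)) := rv_inj hxy
          obtain ⟨N1, h1⟩ := hR hx'
          obtain ⟨N2, h2⟩ := hR hy'
          have e : h (rv x) = h (rv y) := hg _ _ ⟨max N1 N2, fun i hi => by
            rw [h1 i (le_trans (le_max_left _ _) hi), h2 i (le_trans (le_max_right _ _) hi)]⟩ hxy'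
          obtain ⟨M1, h3⟩ := hL hxt'
          obtain ⟨M2, h4⟩ := hL hyt'
          refine cc ?_
          rw [← h3 (min M1 M2) (min_le_left _ _), ← h4 (min M1 M2) (min_le_right _ _), e]
        have hf' : ∀ x, rh f x = rh φ (rh (g ∘ h) x) := by
          intro x
          simp only [rh, rv_rv]
          rw [hf]
        have A0' : ∀ s ∈ P, rh f (cst s) = cst o := by
          intro s hs
          simp only [rh, rv_cst, PA0 s hs]
        have A1' : ∀ (x : ℤ → A) (a b : ℤ), a ≤ b → (∀ i, a ≤ i → i ≤ b → rh f x i = o) →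
            ∃ s ∈ P, ∀ i, a ≤ i → i ≤ b → x i = s := by
          intro x a b hab hx
          obtain ⟨s, hs, hst⟩ := PA1 (rv x) (-b) (-a) (by omega) fun i h1 h2 => by
            have := hx (-i) (by omega) (by omega)
            simpa [rh, rv] using this
          refine ⟨s, hs, fun i h1 h2 => ?_⟩
          have := hst (-i) (by omega) (by omega)
          simpa [rv] using this
        have hst' : rh (g ∘ h) (cst (t j)) = rh (g ∘ h) (cst (t i)) := by
          simp only [rh, rv_cst, hst]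
        have key : ∀ {x : ℤ → A} {b : A}, (¬ ∃ y, RA y b ∧ f y = f x) →
            ¬ ∃ y, LA y b ∧ rh f y = rh f (rv x) := by
          rintro x b hno ⟨y, hy, hyx⟩
          refine hno ⟨rv y, RA_rv.2 hy, ?_⟩
          have := rv_inj hyx
          rwa [rv_rv] at this
        obtain ⟨x, u, hu, hxj, hxu, hno⟩ := D.LS i j (m + 1) hij hj (by omega) (by omega)
        refine core2 (h := rh (g ∘ h)) (E := E) hf' (Lg.comp Lh).rh Lφ.rh Cgh.rh Cφ.rh
          (surj_rh (sg.comp sh)) A0' A1' Rc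
          (p := t j) (q := t i) ⟨j, hj, rfl⟩ ⟨i, by omega, rfl⟩ hst' (LA_rv.2 hxj) (u1 := t u)
          ⟨u, hu, rfl⟩ (RA_rv.2 hxu) ?_
        rintro _ ⟨i', hi', rfl⟩ hE
        exact key (hno i' (hcl i' hi' hE))
    intro i hi j hj hst
    rcases lt_trichotomy i j with hij | hij | hij
    · right
      have := main i j hij hj hst
      omega
    · exact Or.inl hij
    · right
      have := main j i hij hi hst.symm
      omega

/-- a map with the data above is not a composition of fewer than `n` closing maps -/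
theorem not_compN [Finite A] {f : (ℤ → A) → (ℤ → A)} {o : A} {n : ℕ} {t : ℕ → A}
    (D : SData f o n t) {m : ℕ} (hm : m < n) : ¬ CompN m f := by
  intro H
  have := compN_stage D H id ⟨0, le_rfl, fun x y i h => h i (by omega) (by omega)⟩
    (fun x => rfl) (fun x => rfl) 0 (by omega) n le_rfl (by rw [D.A0 0 (by omega), D.A0 n le_rfl])
  omega

end Pool.Agent.H624CA
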