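import Pool.Agent.H624CB.Code

/-!
Alternating compositions of the maps of `Code.lean`: they need as many closing factors as they have.
-/

namespace Pool.Agent.H624CA

section
attribute [local instance] Classical.propDecidable

variable {S : Type} (s0 s1 : S) (n : ℕ)

/-- the composition of the first `m` maps -/
noncomputable def Fs (d : ℕ → Bool) : ℕ → (ℤ → S) → (ℤ → S)
  | 0, x => x
  | m + 1, x => ga s0 s1 n (m + 1) (d (m + 1)) (Fs d m x)

/-- a code word as a block letter -/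
noncomputable def Wb (e : ℕ) : Fin (n + 6) → S := fun j => Wd s0 s1 e j

/-- the letters at the multiples of the length -/
noncomputable def zl (x : ℤ → S) : ℤ → ℕ := fun i => lt s0 s1 n x (((n + 6 : ℕ) : ℤ) * i)

variable {s0 s1 n}

lemma nbl_nb (d : Bool) (i : ℤ) : nbl n d (((n + 6 : ℕ) : ℤ) * i) = ((n + 6 : ℕ) : ℤ) * nb d i := by
  unfold nbl nb
  cases d <;> simp <;> ring

lemma Fs_zl (h01 : s0 ≠ s1) (d : ℕ → Bool) (x : ℤ → S) : ∀ m, m ≤ n →
    Fz d m (zl s0 s1 n x) = zl s0 s1 n (Fs s0 s1 n d m x) := by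
  intro m
  induction m with
  | zero => intro _; rfl
  | succ m ih =>
    intro hm
    show Gz (m + 1) (d (m + 1)) (Fz d m (zl s0 s1 n x)) = _
    rw [ih (by omega)]
    funext i
    show _ = lt s0 s1 n (ga s0 s1 n (m + 1) (d (m + 1)) (Fs s0 s1 n d m x)) _
    rw [lt_g h01 hm]
    unfold Gz Nw
    rw [nbl_nb]
    rfl

lemma Bll_eq {y : ℤ → S} {i : ℤ} {e : ℕ} :
    Bll (n + 6) y i = Wb s0 s1 n e ↔ Ic s0 s1 n y (((n + 6 : ℕ) : ℤ) * i) e := by
  constructor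
  · intro h j hj
    exact congrFun h ⟨j, hj⟩
  · intro h
    funext j
    exact h j j.2

lemma Bil_eq {X : ℤ → (Fin (n + 6) → S)} {i : ℤ} {e : ℕ} :
    X i = Wb s0 s1 n e ↔ Ic s0 s1 n (Bil (n + 6) X) (((n + 6 : ℕ) : ℤ) * i) e := by
  rw [← Bll_eq, Bll_Bil]

lemma zl_eq (h01 : s0 ≠ s1) {X : ℤ → (Fin (n + 6) → S)} {i : ℤ} {e : ℕ} (he : e ≤ n + 1) :
    X i = Wb s0 s1 n e ↔ zl s0 s1 n (Bil (n + 6) X) i = e := by
  rw [Bil_eq]
  exact (lt_iff h01 he).symm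

lemma hat_eq (h01 : s0 ≠ s1) {d : ℕ → Bool} {X : ℤ → (Fin (n + 6) → S)} {i : ℤ} {e : ℕ}
    (he : e ≤ n + 1) : hatl (n + 6) (Fs s0 s1 n d n) X i = Wb s0 s1 n e ↔
      Fz d n (zl s0 s1 n (Bil (n + 6) X)) i = e := by
  rw [Fs_zl h01 d _ n le_rfl]
  show Bll (n + 6) (Fs s0 s1 n d n (Bil (n + 6) X)) i = _ ↔ _
  rw [Bll_eq]
  exact (lt_iff h01 he).symm

lemma hat_zl (h01 : s0 ≠ s1) {d : ℕ → Bool} {X Y : ℤ → (Fin (n + 6) → S)}
    (h : hatl (n + 6) (Fs s0 s1 n d n) Y = hatl (n + 6) (Fs s0 s1 n d n) X) :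
    Fz d n (zl s0 s1 n (Bil (n + 6) Y)) = Fz d n (zl s0 s1 n (Bil (n + 6) X)) := by
  rw [Fs_zl h01 d _ n le_rfl, Fs_zl h01 d _ n le_rfl]
  have := Bll_inj h
  rw [this]

lemma zl_Wb (h01 : s0 ≠ s1) {x : ℤ → ℕ} (hx : ∀ a, x a ≤ n + 1) :
    zl s0 s1 n (Bil (n + 6) fun i => Wb s0 s1 n (x i)) = x := by
  funext i
  exact (zl_eq h01 (hx i)).1 rfl

theorem sdata (h01 : s0 ≠ s1) {d : ℕ → Bool} (hd : ∀ k, d (k + 1) = !(d k)) :
    SData (hatl (n + 6) (Fs s0 s1 n d n)) (Wb s0 s1 n 0) n (Wb s0 s1 n) where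
  inj := by
    intro i hi j hj h
    have h1 := congrFun h ⟨i + 3, by omega⟩
    have h2 : Wd s0 s1 i (i + 3) = Wd s0 s1 j (i + 3) := h1
    rw [(Wd_eq h01).2 (by omega)] at h2
    have := (Wd_eq h01).1 h2.symm
    omega
  A0 := by
    intro i hi
    funext k
    refine (hat_eq h01 (by omega)).2 ?_
    have : zl s0 s1 n (Bil (n + 6) (cst (Wb s0 s1 n i))) = fun _ => i :=
      zl_Wb h01 (x := fun _ => i) (fun _ => by omega)
    rw [this, Fz_cst hi]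
  A1 := by
    intro X a b hab h
    obtain ⟨s, hs, hst⟩ := Fz_run n (zl s0 s1 n (Bil (n + 6) X)) a b hab
      fun i h1 h2 => (hat_eq h01 (by omega)).1 (h i h1 h2)
    exact ⟨s, hs, fun i h1 h2 => (zl_eq h01 (by omega)).2 (hst i h1 h2)⟩
  RS := by
    intro i j k hij hjn hk1 hkj
    obtain ⟨x, hx, ⟨N, h1⟩, ⟨N', h2⟩, h3⟩ := RSz hd hij hjn hk1 hkj
    refine ⟨fun i => Wb s0 s1 n (x i), 0, by omega, ⟨N, fun a ha => by simp only [h1 a ha]⟩,
      ⟨N', fun a ha => by simp only [h2 a ha]⟩, ?_⟩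
    rintro i' hi' ⟨Y, ⟨M, hM⟩, hY⟩
    refine h3 i' hi' ⟨_, ⟨M, fun a ha => (zl_eq h01 (by omega)).1 (hM a ha)⟩, ?_⟩
    rw [hat_zl h01 hY, zl_Wb h01 hx]
  LS := by
    intro i j k hij hjn hk1 hkj
    obtain ⟨x, hx, ⟨N, h1⟩, ⟨N', h2⟩, h3⟩ := LSz hd hij hjn hk1 hkj
    refine ⟨fun i => Wb s0 s1 n (x i), 0, by omega, ⟨N, fun a ha => by simp only [h1 a ha]⟩,
      ⟨N', fun a ha => by simp only [h2 a ha]⟩, ?_⟩
    rintro i' hi' ⟨Y, ⟨M, hM⟩, hY⟩
    refine h3 i' hi' ⟨_, ⟨M, fun a ha => (zl_eq h01 (by omega)).1 (hM a ha)⟩, ?_⟩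
    rw [hat_zl h01 hY, zl_Wb h01 hx]

lemma isCA_of {f : (ℤ → S) → (ℤ → S)} {r : ℤ} (L : Loc f r) (C : Comm f) : IsCA f :=
  ⟨cont_of_loc L, C⟩

lemma Fs_lev (h01 : s0 ≠ s1) {d : ℕ → Bool} (hd : ∀ k, d (k + 1) = !(d k)) : ∀ m, m ≤ n →
    Fs s0 s1 n d m ∈ Lev S m (!(d m)) := by
  intro m
  induction m with
  | zero =>
    intro _
    cases (!(d 0)) <;> rfl
  | succ m ih =>
    intro hm
    have ih' := ih (by omega)
    have hca : IsCA (ga s0 s1 n (m + 1) (d (m + 1))) := isCA_of (g_loc h01 hm) (g_comm h01)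
    have hdm := hd m
    cases hc : d (m + 1) with
    | true =>
      rw [hc] at hdm hca
      rw [← hdm] at ih'
      exact ⟨ga s0 s1 n (m + 1) true, Fs s0 s1 n d m, hca, g_right h01 hm, ih', by
        funext x; show ga s0 s1 n (m + 1) (d (m + 1)) _ = _; rw [hc]; rfl⟩
    | false =>
      rw [hc] at hdm hca
      rw [← hdm] at ih'
      exact ⟨ga s0 s1 n (m + 1) false, Fs s0 s1 n d m, hca, g_left h01 hm, ih', by
        funext x; show ga s0 s1 n (m + 1) (d (m + 1)) _ = _; rw [hc]; rfl⟩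

end

/-- every level of the closing hierarchy is larger than the union of the two levels before -/
theorem lev_strict (S : Type) [Finite S] [Nontrivial S] (n : ℕ) (b : Bool) :
    ∃ f ∈ Lev S (n + 1) b, f ∉ Lev S n true ∧ f ∉ Lev S n false := by
  obtain ⟨s0, s1, h01⟩ := exists_pair_ne S
  set d : ℕ → Bool := fun k => if (k + n + 1) % 2 = 0 then !b else b with hd
  have hd1 : ∀ k, d (k + 1) = !(d k) := by
    intro k
    simp only [hd]
    by_cases h : (k + n + 1) % 2 = 0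
    · have h' : ¬ (k + 1 + n + 1) % 2 = 0 := by omega
      simp [h, h']
    · have h' : (k + 1 + n + 1) % 2 = 0 := by omega
      simp [h, h']
  have hdn : d (n + 1) = !b := by
    have h' : (n + 1 + n + 1) % 2 = 0 := by omega
    simp only [hd, h', if_true]
  have hnot : ∀ c, Fs s0 s1 (n + 1) d (n + 1) ∉ Lev S n c := fun c hf =>
    not_compN (sdata (n := n + 1) h01 hd1) (Nat.lt_succ_self n) (compN_of_lev n c _ hf)
  refine ⟨Fs s0 s1 (n + 1) d (n + 1), ?_, hnot true, hnot false⟩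
  have := Fs_lev (n := n + 1) h01 hd1 (n + 1) le_rfl
  rwa [hdn, Bool.not_not] at this

end Pool.Agent.H624CA
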